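import Pool.Agent.KPI.Final2

/-!
# MP_7616c1_co: the realisable sets which contain 2 and another small integer
-/

set_option autoImplicit false

namespace Pool.Agent.Results.MP_7616c1_co.ContainingTwo

open Pool.Agent.KPI

/-- Let `n ≥ 2` and let `S` be a set which contains `2` and an integer `k ≠ 2` such that
`k ≤ 5` or `2 ^ (k ^ 2) < n`. Then `S` is realisable at order `n` if and only if `n` is even and
`S` consists of the positive integers which are even or at least `n`. -/
theorem result (n : ℕ) (hn : 2 ≤ n) (S : Set ℕ) (h2 : 2 ∈ S)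
    (h : ∃ k ∈ S, k ≠ 2 ∧ (k ≤ 5 ∨ 2 ^ (k ^ 2) < n)) :
    Realisable n S ↔ Even n ∧ S = {k | 1 ≤ k ∧ (Even k ∨ n ≤ k)} := by
  constructor
  · intro hr
    rcases with_two_strong hn h2 hr with h' | h'
    · exact h'
    · exfalso
      obtain ⟨k, hk, hk2, hk5⟩ := h
      rcases h' k hk with h1 | ⟨h1, h3⟩
      · exact hk2 h1
      · omega
  · rintro ⟨he, rfl⟩
    exact realisable_half hn he

end Pool.Agent.Results.MP_7616c1_co.ContainingTwo
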