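import Pool.Agent.KPI.Final2

/-!
# MP_7616c1_co: the realisable sets which miss few positive integers are eventually periodic
-/

set_option autoImplicit false

namespace Pool.Agent.Results.MP_7616c1_co.EventuallyPeriodic

open Pool.Agent.KPI

/-- For every `s` there are a period `K ≥ 1` and a threshold `N` such that for all `n ≥ N` the
sets which miss at most `s` positive integers and are realisable at order `n` are the same as
those which are realisable at order `n + K`. -/
theorem result (s : ℕ) : ∃ K, 1 ≤ K ∧ ∃ N, ∀ n, N ≤ n → ∀ S : Set ℕ,
    ({k | 1 ≤ k} \ S).encard ≤ s → (Realisable n S ↔ Realisable (n + K) S) :=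
  periodic_few s

end Pool.Agent.Results.MP_7616c1_co.EventuallyPeriodic
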