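import Pool.Agent.KPI.Final2

/-!
# MP_7616c1_co: realisable sets which miss few lengths
-/

set_option autoImplicit false

namespace Pool.Agent.Results.MP_7616c1_co.FewMissing

open Pool.Agent.KPI

/-- (1) Let `s ≥ 1`. If a realisable set misses at most `s` positive integers, all the missing
integers are less than `38 (s + 1) ^ 6`, whatever the order is.
(2) On the other hand, for every `t` and every set `P` with
`{1, ..., 4 t - 1} ⊆ P ⊆ {1, ..., t ^ 2 - 3}` the set of the positive integers which are not in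
`P` is realisable at all orders `n ≥ 20 t ^ 4 t!`. For `P = {1, ..., 4 t - 1} ∪ {t ^ 2 - 3}` and
`t ≥ 5` these are `s = 4 t` missing integers, the largest of which is `s ^ 2 / 16 - 3`. -/
theorem result :
    (∀ (n s : ℕ) (S : Set ℕ), 1 ≤ s → Realisable n S → ({k | 1 ≤ k} \ S).encard ≤ s →
      ∀ k, 38 * (s + 1) ^ 6 ≤ k → k ∈ S) ∧
    (∀ (t n : ℕ) (P : Set ℕ), 1 ≤ t → 20 * t ^ 4 * Nat.factorial t ≤ n →
      Set.Icc 1 (4 * t - 1) ⊆ P → (∀ q ∈ P, 1 ≤ q ∧ q + 3 ≤ t ^ 2) →
      Realisable n ({k | 1 ≤ k} \ P)) := by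
  refine ⟨fun n s S hs hr hS k hk => few_missing hs hr hS hk, ?_⟩
  intro t n P ht hn hP' hP
  by_cases h3 : 3 ≤ t ^ 2
  · exact realisable_big (L := t ^ 2 - 3) ht (by omega)
      (fun q hq => ⟨(hP q hq).1, by have := (hP q hq).2; omega⟩)
      (fun q h1 h2 => hP' ⟨h1, by omega⟩) hn
  · exfalso
    have h1 : 1 ∈ P := hP' ⟨le_rfl, by omega⟩
    have := (hP 1 h1).2
    omega

end Pool.Agent.Results.MP_7616c1_co.FewMissing
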