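import Pool.Agent.KPI.Final2

/-!
# MP_7616c1_co: realisable sets with a small complement
-/

set_option autoImplicit false

namespace Pool.Agent.Results.MP_7616c1_co.SmallComplements

open Pool.Agent.KPI

/-- Let `n ≥ 13` and let `S` be a set of positive integers which misses at most two positive
integers, or contains `1, 3, 4, 5, 6`, or contains all `k ≥ 7` and does not miss exactly one of
the sets `{2, 3, 5}`, `{2, 3, 6}`, `{1, 3, 4, 5}`, `{1, 3, 4, 5, 6}`. Then `S` is realisable at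
order `n` if and only if it contains all `k ≥ 7` but not `2`. -/
theorem result (n : ℕ) (hn : 13 ≤ n) (S : Set ℕ) (hS : S ⊆ {k | 1 ≤ k})
    (h : ({k | 1 ≤ k} \ S).encard ≤ 2 ∨ ({1, 3, 4, 5, 6} : Set ℕ) ⊆ S ∨
      ((∀ k, 7 ≤ k → k ∈ S) ∧ {k | 1 ≤ k} \ S ≠ {2, 3, 5} ∧ {k | 1 ≤ k} \ S ≠ {2, 3, 6} ∧
        {k | 1 ≤ k} \ S ≠ {1, 3, 4, 5} ∧ {k | 1 ≤ k} \ S ≠ {1, 3, 4, 5, 6})) :
    Realisable n S ↔ 2 ∉ S ∧ ∀ k, 7 ≤ k → k ∈ S :=
  small_complements hn hS h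

end Pool.Agent.Results.MP_7616c1_co.SmallComplements
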